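import Pool.Agent.Q235.JT.Main
import Pool.Agent.Q151.JT.T1
import Pool.Agent.Q151.JT.T2
import Pool.Agent.Q151.JT.Ker
import Pool.Agent.Q151.JT.Calc
import Pool.Agent.Q182.JT.Cover
import Pool.Agent.Q137.JT.Schur
import Pool.Agent.Q137.JT.B3
import Pool.Agent.Q137.JT.Count
import Pool.Agent.Q137.JT.Dim

set_option autoImplicit false

/-!
# Codimension one for a graph with three vertices

`MGraph` is a finite graph with multiple edges and self-loops allowed, `Cover v` its universal
cover (non-backtracking walks starting at `v`). `ActsBy H (jacFun v b a)` says that `H` is the lifted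
Jacobi operator on `ℓ²` of the universal cover; there is exactly one such `H`. `gaps s` are the
bounded components of the complement of `s`, `AllOpen v` is the set of parameters in
`Par = {a > 0}` for which the spectrum has exactly `p - 1` gaps.

For the theta graph with one subdivided edge (three vertices, four edges) the set of parameters
with all gaps open is dense and its complement has Hausdorff dimension `p + q - 1 = 6`, that is
codimension one.
-/

open scoped ENNReal

namespace Pool.Agent.Results.MP_a3b80b_mp.CodimensionOne

open Pool.Agent.Q235.JT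

theorem spec : S_SPEC :=
  Spec.main Pool.Agent.Q151.JT.T1.main Pool.Agent.Q151.JT.T2.main Pool.Agent.Q151.JT.Calc.main
    Pool.Agent.Q151.JT.Ker.main Lip.main

theorem low0 : S_LOW0 :=
  Spec.main0 Pool.Agent.Q151.JT.T1.main Pool.Agent.Q151.JT.T2.main Pool.Agent.Q151.JT.Calc.main
    Pool.Agent.Q151.JT.Ker.main Lip.main

lemma theta_connected : theta.Connected := by
  have step : ∀ d : theta.Dart, Relation.ReflTransGen
      (fun a b => ∃ d, theta.src d = a ∧ theta.tgt d = b) (theta.src d) (theta.tgt d) :=
    fun d => Relation.ReflTransGen.single ⟨d, rfl, rfl⟩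
  have h01 := step ((0 : Fin 4), true)
  have h10 := step ((0 : Fin 4), false)
  have h02 := step ((2 : Fin 4), true)
  have h20 := step ((2 : Fin 4), false)
  have h12 := step ((3 : Fin 4), true)
  have h21 := step ((3 : Fin 4), false)
  intro v w
  change Fin 3 at v w
  fin_cases v <;> fin_cases w
  · exact Relation.ReflTransGen.refl
  · exact h01
  · exact h02
  · exact h10
  · exact Relation.ReflTransGen.refl
  · exact h12
  · exact h20
  · exact h21
  · exact Relation.ReflTransGen.refl

lemma theta_noLeaves : theta.NoLeaves := by
  intro v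
  have h : ∀ v : Fin 3, 2 ≤ (Finset.univ.filter fun d : Fin 4 × Bool =>
      (if d.2 then (![0, 0, 0, 1] : Fin 4 → Fin 3) d.1 else ![1, 1, 2, 2] d.1) = v).card := by
    decide
  exact h v

/-- There is a finite connected graph without leaves, with three vertices (and four edges), for
which the set of parameters with all gaps open is dense in the parameter space, but its
complement in the parameter space has Hausdorff dimension `p + q - 1`, i.e. codimension one.
(The first clause: the lifted Jacobi operator exists and is unique for all parameters.) -/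
theorem result : ∃ G : MGraph, Fintype.card G.V = 3 ∧ Fintype.card G.E = 4 ∧
    G.Connected ∧ G.NoLeaves ∧
    ∀ v : G.V, (∀ b a, ∃! H : Op (MGraph.Cover v), ActsBy H (MGraph.jacFun v b a)) ∧
      G.Par ⊆ closure (G.AllOpen v) ∧
      dimH (G.Par \ G.AllOpen v) = ((Fintype.card G.V + Fintype.card G.E - 1 : ℕ) : ℝ≥0∞) := by
  refine ⟨theta, Fintype.card_fin 3, Fintype.card_fin 4, theta_connected, theta_noLeaves,
    fun v => ⟨MGraph.existsUnique v, ?_⟩⟩
  have h := Asm.final spec low0 Pool.Agent.Q182.JT.main Pool.Agent.Q137.JT.Schur.main
    (Pool.Agent.Q137.JT.B3.main Pool.Agent.Q137.JT.Schur.main) Pool.Agent.Q137.JT.Count.main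
    Pool.Agent.Q137.JT.Dim.main v
  rw [MGraph.Exc] at h
  rw [MGraph.allOpen_eq]
  refine ⟨h.1, ?_⟩
  rw [h.2]
  have e1 : Fintype.card theta.V = 3 := Fintype.card_fin 3
  have e2 : Fintype.card theta.E = 4 := Fintype.card_fin 4
  rw [e1, e2]
  norm_num

end Pool.Agent.Results.MP_a3b80b_mp.CodimensionOne
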